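import Mathlib
import Pool.Agent.W484.HS.Fin

/-!
# Homological and numerical equivalence on products of almost all abelian varieties with varieties
of small Frobenius rank

Let `g i` (`i` in a finite set `I`) be positive integers and `r` an integer smaller than all the
`g i`.  For a prime power `q` let `S i` be the set of the characteristic polynomials of Frobenius
of the ordinary abelian varieties of dimension `g i` over the field with `q` elements, or of all
abelian varieties of dimension `g i`, or any set in between.

For all families `F i` in `S i` with the exception of a proportion `O (q ^ (-1 / 6) log q)` the
following holds for all abelian varieties `A` over the field with `q` elements, isogenous to a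
product of powers of abelian varieties with characteristic polynomials `F i`, and every Weil
cohomology with algebraically closed coefficient field (over the algebraic closure `k` of the
finite field): homological and numerical equivalence coincide on `A`; and for **every** smooth
projective variety `Y` over the field with `q ^ s` elements such that the eigenvalues of
Frobenius on its cohomology and their conjugates generate a group of rank at most `r` modulo the
powers of `q`, they coincide on `A × Y` if (and only if) they coincide on `Y`.

So the conjecture `D` holds for instance for `A × Y` if `Y` is any surface of Frobenius rank at
most `r`.

The varieties are smooth proper schemes, and the cohomology is any Weil cohomology on a class of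
such varieties closed under products.  What is used of `A` is listed in `IsAbelianFrobenius`:
the cohomology is generated by `H ^ 1`, on which Frobenius is diagonalizable with eigenvalues roots
of the `F i`, and the theorem of Tate on divisors.

The idea of the proof: a sieve (helper521) and an argument on the relations between the eigenvalues
show that a product of roots of the `F i`, no two of them with product `q`, is never the product of
a power of `q` and the inverse of an eigenvalue for `Y`, up to roots of unity.  So the classes of
cycles on `A × Y` are combinations of products of intersections of divisors on `A` with classes on
`Y`.  The components in a rational basis of the classes of cycles on `A` are classes of cycles.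
That the cycles on `A` satisfy `D` is due to the fact that the dual of a class of a cycle under
Poincare duality is again fixed by Frobenius up to a power of `q`, so it is algebraic.
-/

set_option autoImplicit false

universe u v

namespace Pool.Agent.Results.MP_f569db_ag.AlmostAllProducts

open Polynomial Pool.Agent.W521.Descent Pool.Agent.W521.Count Pool.Agent.W484.AA
  Pool.Agent.W484.HS

/-- `weilPolys q g` is the set of monic integral polynomials of degree `2 g` with constant term
`q ^ g` and all roots of absolute value `√q`; `ordinaryWeilPolys q g` is the subset of those
whose coefficient of index `g` is prime to `q`. -/
theorem result {I : Type} [Fintype I] (g : I → ℕ) (r : ℕ) (hr : ∀ i, r < g i) :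
    ∃ C : ℝ, ∀ q : ℕ, IsPrimePow q → ∀ S : I → Set ℤ[X],
      (∀ i, ordinaryWeilPolys q (g i) ⊆ S i ∧ S i ⊆ weilPolys q (g i)) →
      (∀ i, (S i).Finite ∧ (S i).Nonempty) ∧
      ({F : I → ℤ[X] | (∀ i, F i ∈ S i) ∧ ¬ NumForSmallRank.{u, v} q r F}.ncard : ℝ) ≤
        C * (Real.log q * (q : ℝ) ^ (-(1 / 6) : ℝ)) * ∏ i, ((S i).ncard : ℝ) :=
  count_of_good g (fun i => (Nat.zero_le r).trans_lt (hr i))
    (fun q F => NumForSmallRank.{u, v} q r F)
    fun _ hq x hx => numForSmallRank_of_good g hq.pos.ne' r hr x hx

end Pool.Agent.Results.MP_f569db_ag.AlmostAllProducts
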