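import Pool.Agent.W537.AnK

open CategoryTheory AlgebraicGeometry

universe u v w

open Pool.Agent.H914 Pool.Agent.H914.VarClass Pool.Agent.H914.VarClass.Obj

/-- **The standard conjecture D for everything dominated by products of varieties with complex
multiplication without isotropic vectors.** Let `W` be a Weil cohomology theory with coefficients
in `K`. Let `P j` be smooth proper varieties such that, for every `j`, some `K`-linear
combination of algebraic correspondences of degree zero acts on `H(P j)` with a squarefree
characteristic polynomial, and let `S j` be a set of degrees such that the algebra `H(P j)` is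
generated by the algebraic classes and the `H^i(P j)` with `i ∈ S j`, and such that for `i ∈ S j`
some combination of algebraic correspondences maps `H^(2n-i)(P j)` injectively to `H^i(P j)`,
`n = dim P j`, and for no nonzero vector `x ∈ H^i(P j)` all the numbers `Tr (z(x) x)`, `z` an
algebraic cycle on `P j × P j`, vanish. Then homological and numerical equivalence coincide, in
all codimensions, on every product `Q` of the varieties `P j` and on every variety `Y` dominated
by such a product. -/
theorem Pool.Agent.Results.MP_f569db_ag.AnisotropicProducts.result {k : Type u} [Field k]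
    {𝒱 : VarClass k} {ops : CycleOps 𝒱} (W : WeilCohomology.{u, v} ops) {ι : Type w}
    (P : ι → 𝒱.Obj) (S : ι → Set ℕ)
    (hsimple : ∀ j, Pool.Agent.W537.SimpleCorrespondence W (P j))
    (hgen : ∀ j, Pool.Agent.W537.GeneratedInDegrees W (P j) (S j))
    (hdual : ∀ j, ∀ i ∈ S j, Pool.Agent.W537.AlgebraicDuality W (P j) i)
    (hiso : ∀ j, ∀ i ∈ S j, Pool.Agent.W537.NoIsotropicVector W (P j) i)
    (Q : 𝒱.Obj) (hQ : Pool.Agent.W537.IsProductOf P Q) (Y : 𝒱.Obj) (hY : Dominates W Q Y) :
    HomEqNum W Y :=
  Pool.Agent.W537.main P hsimple S hgen hdual hiso Q hQ Y hY
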