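import Pool.Agent.W537.RangeC

open CategoryTheory AlgebraicGeometry

universe u v

open Pool.Agent.H914 Pool.Agent.H914.VarClass Pool.Agent.H914.VarClass.Obj Pool.Agent.H447
  Pool.Agent.W537

/-- **The standard conjecture D for the cycles of one dimension on the square of a variety.** Let
`X` be a smooth proper variety of dimension `n` over an algebraically closed field, `W` a Weil
cohomology theory, `D` a divisor on `X` whose class satisfies hard Lefschetz, and `d < n`. Then
the following are equivalent: homological and numerical equivalence coincide for the cycles of
dimension `d` on `X × X`; they coincide for all cycles of dimension at most `d` and for all cycles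
of codimension at most `d` on `X × X`; the Lefschetz standard conjecture holds for `X` in the
degrees at most `d`, the Kunneth projectors of `X` in the degrees `i` and `2 n - i` for `i ≤ d`
are algebraic, and every numerically trivial cycle of any codimension on `X × X` acts as zero from
`H^i(X)` to `H^j(X)` whenever `|i - n| + |j - n| ≥ 2 (n - d)`. -/
theorem Pool.Agent.Results.MP_f569db_ag.DimensionRange.result {k : Type u} [Field k]
    [IsAlgClosed k] {𝒱 : VarClass k} {ops : CycleOps 𝒱} (W : WeilCohomology.{u, v} ops)
    (X : 𝒱.Obj) (D : X.Cycles) (hD : X.IsCyc 1 D) (hHL : HardLefschetz W X D) (d : ℕ)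
    (hd : d < X.dim) :
    List.TFAE [HomEqNumIn W (X.prod X) (2 * X.dim - d),
      ∀ e ≤ d, HomEqNumIn W (X.prod X) (2 * X.dim - e) ∧ HomEqNumIn W (X.prod X) e,
      LefschetzUpTo W X D d ∧ KunnethUpTo W X d ∧ NumTrivialVanishOutside W X d] :=
  range_tfae hD hHL hd
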