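import Pool.Agent.W547.DR.Final

/-!
# Standard conjecture D for `B ^ n × S`, `B` absolutely simple of dimension at most five over a
finite field, `S` supersingular

Over an algebraic closure of the field with `p` elements each abelian variety is isogenous to the
reduction of an abelian variety of CM type (Honda, Tate). So an abelian variety over the field with
`p ^ a` elements is modelled by a finite product `X` of CM types `(E i, Φ i)` with Weil numbers
`π i ∈ E i` that satisfy the formula of Shimura and Taniyama (`RedAV`); its first homology, for a Weil
cohomology with coefficients in an algebraically closed field `Ω` (for example `ℓ`-adic homology,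
tensored with an algebraic closure of `ℚ_ℓ`), is `Ω ⊗ H_1(X, ℚ)`, on which the Frobenius endomorphism
acts by `π`.

Let `Y` be isogenous (over an algebraic closure) to `B ^ n × S`, where `S` is a supersingular abelian
variety of any dimension and `B` is the reduction of an abelian variety with complex multiplication
by a CM field of degree at most ten (each absolutely simple abelian variety of dimension at most five
is of this form; there is no condition on the Newton polygon). Let `z` be a Tate class of degree
`2 r` on `Y` over a finite extension, for example the class of an algebraic cycle or a linear
combination of such classes with coefficients in `Ω`. If the cup product of `z` with every class of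
complementary degree in the smallest system of cohomology classes `Alg` is zero, then `z = 0`; here
`Alg` contains the Tate classes of degree two and the reductions of the split Weil classes on
abelian fourfolds and sixfolds of CM type and is stable under the usual operations.

The classes in `Alg` are algebraic (with coefficients in `Ω`) by theorems of Tate and Markman. So each
numerically trivial algebraic cycle on `Y` is homologically trivial: conjecture D holds for `Y`.
-/

namespace Pool.Agent.Results.MP_f569db_ag.SimpleUpToDimensionFive

open Pool.Agent.W495.TA Pool.Agent.W547.KB Pool.Agent.W547.DR

/-- `A` is a CM type whose field has degree at most ten, with Frobenius endomorphism `ϖ` over the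
field with `p ^ b` elements, and `Y` is isogenous (over an algebraic closure) to a product of a power
of the reduction of `A` and of a supersingular abelian variety: a Tate class `z` of degree `2 r` of
`Y` over the extension of degree `s` which is orthogonal to the system generated by Tate classes of
degree two and split Weil classes is zero. -/
theorem result (p : ℕ) [Fact p.Prime] (ν : PadicAlgCl p ≃+* ℂ) (A : CMPair)
    (hA : Module.finrank ℚ A.E ≤ 10) (b : ℕ) (hb : 0 < b) (ϖ : A.E)
    (hϖ : IsFrobenius p ν A b ϖ) (Ω : Type) [Field Ω] [IsAlgClosed Ω] [CharZero Ω]
    (Y : RedAV p ν) (hY : IsPowerTimesSupersingular A b ϖ Y) (s r : ℕ) (hs : 0 < s)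
    (z : (TM Ω Y) [⋀^Fin (2 * r)]→ₗ[Ω] Ω) (hz : IsTateClass Ω Y s r z)
    (ho : IsOrthogonal Ω Y z) : z = 0 :=
  conjectureD A hA b hb ϖ hϖ Ω Y hY s r hs z hz ho

end Pool.Agent.Results.MP_f569db_ag.SimpleUpToDimensionFive
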